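import Mathlib

set_option autoImplicit false

namespace Pool.Agent.Results.MP_3ea013_an.Counter

/-- Left stability of the subalgebra carried by `S`, tested inside `S` only. -/
def LeftStableOn {A : Type} [NonUnitalNormedRing A] (S : Set A) : Prop :=
  ∀ a ∈ S, ∀ M : ℝ, 0 < M → (∀ b ∈ S, ‖a * b‖ ≤ M * ‖b‖) → ‖a‖ ≤ M

/-- Right stability of the subalgebra carried by `S`, tested inside `S` only. -/
def RightStableOn {A : Type} [NonUnitalNormedRing A] (S : Set A) : Prop :=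
  ∀ a ∈ S, ∀ M : ℝ, 0 < M → (∀ b ∈ S, ‖b * a‖ ≤ M * ‖b‖) → ‖a‖ ≤ M

def B : Type := ℂ × ℂ

noncomputable instance : CommRing B := inferInstanceAs (CommRing (ℂ × ℂ))
noncomputable instance : Algebra ℂ B := inferInstanceAs (Algebra ℂ (ℂ × ℂ))

noncomputable def N : AddGroupNorm B where
  toFun := fun x : ℂ × ℂ => ‖x.1‖ + 2 * ‖x.2 - x.1‖
  map_zero' := by show ‖(0 : ℂ)‖ + 2 * ‖(0 : ℂ) - 0‖ = 0; simp
  add_le' := fun x y : ℂ × ℂ => by
    show ‖x.1 + y.1‖ + 2 * ‖x.2 + y.2 - (x.1 + y.1)‖ ≤ _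
    have := norm_add_le x.1 y.1
    have := norm_add_le (x.2 - x.1) (y.2 - y.1)
    rw [add_sub_add_comm]; linarith
  neg' := fun x : ℂ × ℂ => by
    show ‖-x.1‖ + 2 * ‖-x.2 - -x.1‖ = _
    rw [norm_neg, ← neg_sub', norm_neg]
  eq_zero_of_map_eq_zero' := fun (x : ℂ × ℂ) h => by
    have h1 : ‖x.1‖ = 0 := by linarith [norm_nonneg x.1, norm_nonneg (x.2 - x.1)]
    have h2 : ‖x.2 - x.1‖ = 0 := by linarith
    rw [norm_eq_zero] at h1 h2
    exact Prod.ext h1 (by rw [h1, sub_zero] at h2; exact h2)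

noncomputable instance : NormedRing B :=
  { N.toNormedAddCommGroup, (inferInstance : CommRing B) with
    norm_mul_le := fun x y : ℂ × ℂ => by
      show ‖x.1 * y.1‖ + 2 * ‖x.2 * y.2 - x.1 * y.1‖ ≤
        (‖x.1‖ + 2 * ‖x.2 - x.1‖) * (‖y.1‖ + 2 * ‖y.2 - y.1‖)
      have e : x.2 * y.2 - x.1 * y.1 =
        x.1 * (y.2 - y.1) + (x.2 - x.1) * y.1 + (x.2 - x.1) * (y.2 - y.1) := by ring
      have := norm_add₃_le (a := x.1 * (y.2 - y.1)) (b := (x.2 - x.1) * y.1)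
        (c := (x.2 - x.1) * (y.2 - y.1))
      have := mul_nonneg (norm_nonneg (x.2 - x.1)) (norm_nonneg (y.2 - y.1))
      simp only [e, norm_mul] at *
      nlinarith }

noncomputable instance : NormedAlgebra ℂ B where
  norm_smul_le := fun c (x : ℂ × ℂ) => by
    show ‖c * x.1‖ + 2 * ‖c * x.2 - c * x.1‖ ≤ ‖c‖ * (‖x.1‖ + 2 * ‖x.2 - x.1‖)
    rw [← mul_sub, norm_mul, norm_mul]; linarith

theorem result : ∃ (A : Type) (_ : NormedRing A) (_ : NormedAlgebra ℂ A) (I : TwoSidedIdeal A),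
    LeftStableOn (Set.univ : Set A) ∧ RightStableOn (Set.univ : Set A) ∧
      (∃ p ∈ I, ∀ b ∈ I, p * b = b ∧ b * p = b) ∧
      ¬ LeftStableOn (I : Set A) ∧ ¬ RightStableOn (I : Set A) := by
  have h1 : ‖(1 : B)‖ = 1 := by show ‖(1 : ℂ)‖ + 2 * ‖(1 : ℂ) - 1‖ = 1; simp
  let p : B := ((0, 1) : ℂ × ℂ)
  have hp : ‖p‖ = 2 := by show ‖(0 : ℂ)‖ + 2 * ‖(1 : ℂ) - 0‖ = 2; simp
  let I : TwoSidedIdeal B := TwoSidedIdeal.ker (RingHom.fst ℂ ℂ : B →+* ℂ)
  have pI : p ∈ I := (TwoSidedIdeal.mem_ker _).2 rfl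
  have hI : ∀ b ∈ I, p * b = b ∧ b * p = b := fun (b : ℂ × ℂ) hb => by
    have : b.1 = 0 := (TwoSidedIdeal.mem_ker _).1 hb
    exact ⟨Prod.ext ((zero_mul b.1).trans this.symm) (one_mul b.2),
      Prod.ext ((mul_zero b.1).trans this.symm) (mul_one b.2)⟩
  refine ⟨B, inferInstance, inferInstance, I, fun a _ M _ h => by simpa [h1] using h 1 trivial,
    fun a _ M _ h => by simpa [h1] using h 1 trivial, ⟨p, pI, hI⟩, fun h => ?_, fun h => ?_⟩
  · linarith [h p pI 1 one_pos fun b hb => by rw [(hI b hb).1, one_mul]]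
  · linarith [h p pI 1 one_pos fun b hb => by rw [(hI b hb).2, one_mul]]

end Pool.Agent.Results.MP_3ea013_an.Counter
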